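import Pool.Agent.H25.MNLind

set_option autoImplicit false
open Set Cardinal Topology

namespace Pool.Agent.Results.MP_d81239_gt.Yes

universe u

/-- The Lindelöf number. -/
noncomputable def lind (Z : Type u) [TopologicalSpace Z] : Cardinal.{u} :=
  sInf {κ | ℵ₀ ≤ κ ∧ ∀ 𝒰 : Set (Set Z), (∀ U ∈ 𝒰, IsOpen U) → ⋃₀ 𝒰 = Set.univ →
    ∃ 𝒱 ⊆ 𝒰, #𝒱 ≤ κ ∧ ⋃₀ 𝒱 = Set.univ}

/-- Monotone normality. -/
def MonNormal (X : Type u) [TopologicalSpace X] : Prop :=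
  T1Space X ∧ ∃ H : X → Set X → Set X,
    (∀ x U, IsOpen U → x ∈ U → IsOpen (H x U) ∧ x ∈ H x U ∧ H x U ⊆ U) ∧
    ∀ x U y V, IsOpen U → x ∈ U → IsOpen V → y ∈ V → (H x U ∩ H y V).Nonempty → x ∈ V ∨ y ∈ U

theorem result (X : Type u) [TopologicalSpace X] (hX : MonNormal X) (Y : Set X) (hY : Dense Y) :
    lind X ≤ lind Y := by
  obtain ⟨_, H, h1, h2⟩ := hX
  obtain ⟨hκ, hl⟩ := csInf_mem (s := {κ | ℵ₀ ≤ κ ∧ ∀ 𝒰 : Set (Set Y), (∀ U ∈ 𝒰, IsOpen U) →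
      ⋃₀ 𝒰 = Set.univ → ∃ 𝒱 ⊆ 𝒰, #𝒱 ≤ κ ∧ ⋃₀ 𝒱 = Set.univ})
    ⟨max ℵ₀ #(Set Y), le_max_left _ _, fun 𝒰 _ h => ⟨𝒰, subset_rfl,
      (mk_set_le _).trans (le_max_right _ _), h⟩⟩
  refine csInf_le' ⟨hκ, fun 𝒰 ho hc => ?_⟩
  have : ∀ x, ∃ U ∈ 𝒰, x ∈ U := fun x => (hc ▸ mem_univ x : x ∈ ⋃₀ 𝒰)
  choose U hU hx using this
  have key : ∀ O : X → Set X, (∀ y ∈ Y, IsOpen (O y) ∧ y ∈ O y) →
      ∃ s ⊆ Y, #s ≤ lind Y ∧ Y ⊆ ⋃ y ∈ s, O y := by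
    intro O hO
    obtain ⟨𝒱, h3, h4, h5⟩ := hl (range fun y : Y => Subtype.val ⁻¹' O y)
      (by rintro _ ⟨y, rfl⟩; exact (hO y y.2).1.preimage continuous_subtype_val)
      (eq_univ_of_forall fun y => ⟨_, ⟨y, rfl⟩, (hO y y.2).2⟩)
    choose y hy using fun V : 𝒱 => h3 V.2
    refine ⟨range fun V => (y V).1, range_subset_iff.2 fun V => (y V).2, mk_range_le.trans h4,
      fun z hz => ?_⟩
    obtain ⟨V, hV, hzV⟩ := (h5 ▸ mem_univ _ : (⟨z, hz⟩ : Y) ∈ ⋃₀ 𝒱)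
    exact mem_biUnion ⟨⟨V, hV⟩, rfl⟩ ((hy ⟨V, hV⟩).ge hzV)
  obtain ⟨s, hs, hs'⟩ := H25.MNLind.core H h1 h2 hκ hY key U fun x => ⟨ho _ (hU x), hx x⟩
  refine ⟨U '' s, image_subset_iff.2 fun x _ => hU x, mk_image_le.trans hs, ?_⟩
  rw [sUnion_image, hs']

end Pool.Agent.Results.MP_d81239_gt.Yes
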